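import Pool.Agent.Y760.ST.Stm2

/-!
# Project ST, LAU: Dirichlet series of Laurent monomials

Job 8760 (poster helper760).
-/

set_option autoImplicit false

namespace Pool.Agent.Y43.ST2

open Filter Topology ArithmeticFunction
open Pool.Agent.TH507.ZS
open Pool.Agent.Y760.ST (dil lau LauStmt)

lemma dil_pow {a : ℕ} (ha : 1 ≤ a) (f : ArithmeticFunction ℚ) (l : ℕ) :
    dil a f (l ^ a) = f l := by
  show ∑ l' ∈ Finset.range (l ^ a + 1), (if l' ^ a = l ^ a then f l' else 0) = f l
  rw [Finset.sum_eq_single l]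
  · rw [if_pos rfl]
  · intro l' _ hl'
    rw [if_neg]
    intro h
    exact hl' (Nat.pow_left_injective (by omega) h)
  · intro h
    exfalso
    apply h
    rw [Finset.mem_range]
    have := Nat.le_self_pow (by omega : a ≠ 0) l
    omega

lemma dil_ne {a : ℕ} (f : ArithmeticFunction ℚ) {k : ℕ} (h : ∀ l, l ^ a ≠ k) :
    dil a f k = 0 := by
  show ∑ l' ∈ Finset.range (k + 1), (if l' ^ a = k then f l' else 0) = 0
  apply Finset.sum_eq_zero
  intro l' _
  rw [if_neg (h l')]

lemma dil_mult {a : ℕ} (ha : 1 ≤ a) {f : ArithmeticFunction ℚ} (hf : f.IsMultiplicative) :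
    (dil a f).IsMultiplicative := by
  refine ⟨?_, fun {m n} hmn => ?_⟩
  · have h1 := dil_pow ha f 1
    rw [one_pow] at h1
    rw [h1, hf.1]
  · by_cases hm : ∃ x, x ^ a = m
    · by_cases hn : ∃ y, y ^ a = n
      · obtain ⟨x, rfl⟩ := hm
        obtain ⟨y, rfl⟩ := hn
        rw [← mul_pow, dil_pow ha, dil_pow ha, dil_pow ha]
        apply hf.2
        exact Nat.Coprime.of_dvd (dvd_pow_self x (by omega)) (dvd_pow_self y (by omega)) hmn
      · have h1 : dil a f n = 0 := dil_ne f (fun l hl => hn ⟨l, hl⟩)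
        have h2 : dil a f (m * n) = 0 := by
          apply dil_ne
          intro l hl
          apply hn
          have hu : IsUnit (gcd n m) := by
            rw [Nat.isUnit_iff]
            exact hmn.symm
          obtain ⟨d, hd⟩ := exists_eq_pow_of_mul_eq_pow hu (by rw [mul_comm]; exact hl.symm)
          exact ⟨d, hd.symm⟩
        rw [h1, h2, mul_zero]
    · have h1 : dil a f m = 0 := dil_ne f (fun l hl => hm ⟨l, hl⟩)
      have h2 : dil a f (m * n) = 0 := by
        apply dil_ne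
        intro l hl
        apply hm
        have hu : IsUnit (gcd m n) := by
          rw [Nat.isUnit_iff]
          exact hmn
        obtain ⟨d, hd⟩ := exists_eq_pow_of_mul_eq_pow hu hl.symm
        exact ⟨d, hd.symm⟩
      rw [h1, h2, zero_mul]

lemma dil_pb {a : ℕ} (ha : 1 ≤ a) {f : ArithmeticFunction ℚ} (hf : PB f) : PB (dil a f) := by
  obtain ⟨A, hA⟩ := hf
  refine ⟨A, fun k hk => ?_⟩
  by_cases h : ∃ l, l ^ a = k
  · obtain ⟨l, rfl⟩ := h
    rw [dil_pow ha]
    have hl : 1 ≤ l := by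
      rcases Nat.eq_zero_or_pos l with rfl | h
      · rw [zero_pow (by omega)] at hk
        omega
      · exact h
    refine (hA l hl).trans ?_
    have h1 : (l : ℝ) ≤ ((l ^ a : ℕ) : ℝ) := by
      exact_mod_cast Nat.le_self_pow (by omega : a ≠ 0) l
    gcongr
  · rw [dil_ne f (fun l hl => h ⟨l, hl⟩), Rat.cast_zero, abs_zero]
    positivity

lemma dil_ser {a : ℕ} (ha : 1 ≤ a) (f : ArithmeticFunction ℚ) (n : ℕ) :
    dser (dil a f) n = dser f (a * n) := by
  unfold dser
  have hpos : ∀ k : ℕ, 1 ≤ (k + 1) ^ a := fun k => Nat.one_le_pow _ _ (Nat.succ_pos k)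
  have hinj : Function.Injective (fun k : ℕ => (k + 1) ^ a - 1) := by
    intro k k' h
    simp only at h
    have h1 := hpos k
    have h2 := hpos k'
    have h3 : (k + 1) ^ a = (k' + 1) ^ a := by omega
    have h4 := Nat.pow_left_injective (by omega : a ≠ 0) h3
    omega
  rw [← hinj.tsum_eq]
  · apply tsum_congr
    intro k
    have h1 : (k + 1) ^ a - 1 + 1 = (k + 1) ^ a := Nat.sub_add_cancel (hpos k)
    simp only [h1]
    rw [dil_pow ha]
    push_cast
    rw [pow_mul]
  · intro b hb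
    rw [Function.mem_support] at hb
    have h1 : dil a f (b + 1) ≠ 0 := by
      intro h
      apply hb
      rw [h, Rat.cast_zero, zero_div]
    have h2 : ∃ l, l ^ a = b + 1 := by
      by_contra h
      exact h1 (dil_ne f (fun l hl => h ⟨l, hl⟩))
    obtain ⟨l, hl⟩ := h2
    have hl0 : l ≠ 0 := by
      rintro rfl
      rw [zero_pow (by omega)] at hl
      omega
    obtain ⟨k, rfl⟩ : ∃ k, l = k + 1 := ⟨l - 1, by omega⟩
    refine ⟨k, ?_⟩
    simp only
    omega

lemma dil_rep {a : ℕ} (ha : 1 ≤ a) {f : ArithmeticFunction ℚ} {F : ℕ → ℝ} {D : ℕ → ℚ}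
    (h : Rep f F D) : Rep (dil a f) (fun n => F (a * n)) (fun p => dil a f p) where
  mul := dil_mult ha h.mul
  pb := dil_pb ha h.pb
  ser := by
    obtain ⟨n1, h1⟩ := h.ser
    refine ⟨n1, fun n hn => ?_⟩
    rw [dil_ser ha, h1]
    nlinarith
  prime := fun _ _ => rfl

lemma sh_eq (f : ArithmeticFunction ℚ) (j : ℕ) :
    Pool.Agent.Y760.ST.sh f j = Pool.Agent.TH507.ZS.sh f j := by
  ext k
  rw [Pool.Agent.TH507.ZS.sh_apply]
  show (if k = 0 then (0 : ℚ) else f k / (k : ℚ) ^ j) = f k / (k : ℚ) ^ j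
  split_ifs with h
  · rw [h]
    simp
  · rfl

lemma zp (x : ℝ) (e : ℤ) : x ^ e.toNat * x⁻¹ ^ (-e).toNat = x ^ e := by
  rcases le_total 0 e with h | h
  · obtain ⟨k, rfl⟩ := Int.eq_ofNat_of_zero_le h
    rw [Int.toNat_natCast, Int.toNat_eq_zero.2 (by omega), pow_zero, mul_one, zpow_natCast]
  · obtain ⟨k, hk⟩ := Int.eq_ofNat_of_zero_le (show 0 ≤ -e by omega)
    have he : e = -(k : ℤ) := by omega
    rw [he, neg_neg, Int.toNat_natCast, Int.toNat_eq_zero.2 (by omega), pow_zero, one_mul,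
      zpow_neg, zpow_natCast, inv_pow]

theorem lauT : LauStmt := by
  intro f g hf hg pf pg hfg A h e
  have hrep : ∀ (a : Fin A) (b : Fin h), Rep
      (dil (a + 1) (Pool.Agent.Y760.ST.sh f b) ^ (e a b).toNat *
        dil (a + 1) (Pool.Agent.Y760.ST.sh g b) ^ (-(e a b)).toNat)
      (fun n => dser f ((a + 1) * n + b) ^ (e a b).toNat *
        dser g ((a + 1) * n + b) ^ (-(e a b)).toNat)
      (fun p => ((e a b).toNat : ℚ) * dil (a + 1) (Pool.Agent.Y760.ST.sh f b) p +
        ((-(e a b)).toNat : ℚ) * dil (a + 1) (Pool.Agent.Y760.ST.sh g b) p) := by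
    intro a b
    rw [sh_eq, sh_eq]
    exact ((dil_rep (by omega) (sh_rep hf pf b)).pow' _).mul'
      ((dil_rep (by omega) (sh_rep hg pg b)).pow' _)
  have hall := Rep.prod' Finset.univ _ _ _ (fun (a : Fin A) _ =>
    Rep.prod' Finset.univ _ _ _ (fun (b : Fin h) _ => hrep a b))
  refine ⟨hall.mul, hall.pb, ?_⟩
  obtain ⟨n1, h1⟩ := hall.ser
  obtain ⟨n2, h2⟩ := dser_mul pf pg
  refine ⟨n1 + n2, fun n hn => ?_⟩
  have h3 := h1 n (by omega)
  refine h3.trans ?_
  apply Finset.prod_congr rfl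
  intro a _
  apply Finset.prod_congr rfl
  intro b _
  have h4 : n2 ≤ ((a : ℕ) + 1) * n + b := by nlinarith
  have h5 := h2 _ h4
  rw [hfg, dser_one] at h5
  have h6 : dser g (((a : ℕ) + 1) * n + b) = (dser f (((a : ℕ) + 1) * n + b))⁻¹ :=
    eq_inv_of_mul_eq_one_right h5.symm
  rw [h6, zp]

end Pool.Agent.Y43.ST2
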